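import Pool.Agent.P8H57.FP.Liftz

/-!
# Project FP, package CONV: the converse
-/

set_option autoImplicit false

namespace Pool.Agent.P8H57.FP

open Pool.Agent.P8H47.FP Topology

section

variable {F K : Type} [Field F] [Field K] [Algebra F K]

open Classical in
/-- the sign of `g a / a` -/
noncomputable def chi (a : K) (g : K ≃ₐ[F] K) : ℤˣ := if g a = a then 1 else -1

theorem map_pm {a : K} (ha2 : a ^ 2 ∈ Fx (⊤ : Subgroup (K ≃ₐ[F] K))) (g : K ≃ₐ[F] K) :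
    g a = a ∨ g a = -a := by
  have h : (g a) ^ 2 = a ^ 2 := by
    rw [← map_pow]
    exact ha2 ⟨g, trivial⟩
  exact sq_eq_sq_iff_eq_or_eq_neg.1 h

theorem chi_spec {a : K} (ha2 : a ^ 2 ∈ Fx (⊤ : Subgroup (K ≃ₐ[F] K))) (g : K ≃ₐ[F] K) :
    g a = (((chi a g : ℤˣ) : ℤ) : K) * a := by
  unfold chi
  split_ifs with h
  · rw [h]
    push_cast
    ring
  · rcases map_pm ha2 g with h1 | h1
    · exact absurd h1 h
    · rw [h1]
      push_cast
      ring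

theorem chi_unique (h2 : (2 : K) ≠ 0) {a : K} (ha : a ≠ 0) {g : K ≃ₐ[F] K} {u v : ℤˣ}
    (hu : g a = ((u : ℤ) : K) * a) (hv : g a = ((v : ℤ) : K) * a) : u = v := by
  have h3 : a = (((v * u : ℤˣ) : ℤ) : K) * a := by
    have h4 : ((v : ℤ) : K) * ((v : ℤ) : K) = 1 := by
      rw [← Int.cast_mul, ← Units.val_mul, Int.units_mul_self]
      push_cast
      rfl
    have h5 : ((u : ℤ) : K) * a = ((v : ℤ) : K) * a := by rw [← hu, ← hv]
    calc a = (((v : ℤ) : K) * ((v : ℤ) : K)) * a := by rw [h4, one_mul]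
      _ = ((v : ℤ) : K) * (((v : ℤ) : K) * a) := by ring
      _ = ((v : ℤ) : K) * (((u : ℤ) : K) * a) := by rw [h5]
      _ = _ := by push_cast; ring
  have h6 := unit_eq h2 ha h3
  have h7 : v * (v * u) = v * 1 := by rw [h6]
  rwa [← mul_assoc, Int.units_mul_self, one_mul, mul_one] at h7

theorem chi_mul (h2 : (2 : K) ≠ 0) {a : K} (ha : a ≠ 0)
    (ha2 : a ^ 2 ∈ Fx (⊤ : Subgroup (K ≃ₐ[F] K))) (g h : K ≃ₐ[F] K) :
    chi a (g * h) = chi a g * chi a h := by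
  apply chi_unique h2 ha (chi_spec ha2 (g * h))
  rw [AlgEquiv.mul_apply, chi_spec ha2 h, map_mul, map_intCast, chi_spec ha2 g]
  push_cast
  ring

/-- the character of `(a, b)` -/
noncomputable def chi2 (h2 : (2 : K) ≠ 0) {a b : K} (ha : a ≠ 0) (hb : b ≠ 0)
    (ha2 : a ^ 2 ∈ Fx (⊤ : Subgroup (K ≃ₐ[F] K))) (hb2 : b ^ 2 ∈ Fx (⊤ : Subgroup (K ≃ₐ[F] K))) :
    (K ≃ₐ[F] K) →* ℤˣ × ℤˣ :=
  MonoidHom.mk' (fun g => (chi a g, chi b g)) fun g h =>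
    Prod.ext (chi_mul h2 ha ha2 g h) (chi_mul h2 hb hb2 g h)

theorem open_of_sub {G : Type} [Group G] [TopologicalSpace G] [IsTopologicalGroup G]
    {N V : Subgroup G} (hV : IsOpen (V : Set G)) (hVN : ∀ v ∈ V, v ∈ N) : IsOpen (N : Set G) :=
  Subgroup.isOpen_mono (H₁ := V) hVN hV

end

/-- package CONV -/
theorem conv (hL : C_LOCN) (F K : Type) [Field F] [Field K] [Algebra F K] [IsGalois F K]
    (h2 : (2 : K) ≠ 0) (hsq : ∀ c : K, ∃ y, y ^ 2 = c) (n : ℕ)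
    (H : Fin n → Subgroup (K ≃ₐ[F] K)) (hfree : Free H)
    (s : K) (hs : s ∈ Fx (⊤ : Subgroup (K ≃ₐ[F] K))) (t : K)
    (ht : t ∈ Fx (⊤ : Subgroup (K ≃ₐ[F] K))) (hs0 : s ≠ 0) (ht0 : t ≠ 0)
    (hk : ∀ k, Nonempty (↥(H k) ≃ₜ* Multiplicative (PadicInt 2)) ∨
      ((∃ w ∈ Fx (H k), s = w ^ 2) ∧ ∃ w ∈ Fx (H k), t = w ^ 2)) :
    Nm (Fx (⊤ : Subgroup (K ≃ₐ[F] K))) t s := by
  obtain ⟨a, rfl⟩ := hsq s
  obtain ⟨b, rfl⟩ := hsq t
  have ha : a ≠ 0 := fun h => hs0 (by rw [h]; ring)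
  have hb : b ≠ 0 := fun h => ht0 (by rw [h]; ring)
  set ψ := chi2 h2 ha hb hs ht with hψ
  -- the kernel of `ψ` is open
  have hfixo : ∀ c : K, ∃ V : Subgroup (K ≃ₐ[F] K), IsOpen (V : Set (K ≃ₐ[F] K)) ∧
      ∀ v ∈ V, v c = c := by
    intro c
    have hc : IsIntegral F c := (IsGalois.integral F c)
    have : FiniteDimensional F (IntermediateField.adjoin F {c}) :=
      IntermediateField.adjoin.finiteDimensional hc
    refine ⟨(IntermediateField.adjoin F {c}).fixingSubgroup,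
      (IntermediateField.adjoin F {c}).fixingSubgroup_isOpen, fun v hv => ?_⟩
    exact hv ⟨c, IntermediateField.mem_adjoin_simple_self F c⟩
  obtain ⟨Va, hVa, hVa1⟩ := hfixo a
  obtain ⟨Vb, hVb, hVb1⟩ := hfixo b
  have hψV : ∀ v ∈ Va ⊓ Vb, ψ v = 1 := by
    intro v hv
    have h1 : chi a v = 1 := if_pos (hVa1 v hv.1)
    have h3 : chi b v = 1 := if_pos (hVb1 v hv.2)
    exact Prod.ext h1 h3
  have hVo : IsOpen ((Va ⊓ Vb : Subgroup (K ≃ₐ[F] K)) : Set (K ≃ₐ[F] K)) := hVa.inter hVb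
  have hψker : IsOpen (ψ.ker : Set (K ≃ₐ[F] K)) := open_of_sub hVo hψV
  have hψH : ∀ U : Subgroup (K ≃ₐ[F] K), HomOn U ψ := fun U =>
    ⟨fun g _ h _ => ψ.map_mul g h, Va ⊓ Vb, hVo, fun v hv _ => hψV v hv⟩
  have hcard : Nat.card (DihedralGroup 4) = 2 ^ 3 := by
    rw [DihedralGroup.nat_card]
    norm_num
  -- local lifts
  have hlift : ∀ k, ∃ φ : (K ≃ₐ[F] K) → DihedralGroup 4, HomOn (H k) φ ∧
      ∀ h ∈ H k, (h₁.prod h₂) (φ h) = ψ h := by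
    intro k
    rcases hk k with h | ⟨⟨w, hw, hw2⟩, ⟨w', hw', hw2'⟩⟩
    · exact liftz_gal F K (H k) h _ _ (h₁.prod h₂) ⟨3, hcard⟩ surj ψ (hψH (H k))
    · refine ⟨fun _ => 1, ⟨fun _ _ _ _ => (mul_one _).symm, ⊤, isOpen_univ, fun _ _ _ => rfl⟩, ?_⟩
      intro h hh
      rw [map_one]
      have e1 : h a = a := by
        have hwf : h w = w := hw ⟨h, hh⟩
        rcases sq_eq_sq_iff_eq_or_eq_neg.1 hw2 with h3 | h3
        · rw [h3, hwf]
        · rw [h3, map_neg, hwf]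
      have e2 : h b = b := by
        have hwf : h w' = w' := hw' ⟨h, hh⟩
        rcases sq_eq_sq_iff_eq_or_eq_neg.1 hw2' with h3 | h3
        · rw [h3, hwf]
        · rw [h3, map_neg, hwf]
      have h1 : chi a h = 1 := if_pos e1
      have h3 : chi b h = 1 := if_pos e2
      exact (Prod.ext h1 h3 : ψ h = 1).symm
  choose φ hφ hφψ using hlift
  have hopen : ∀ {Q : Type} [Group Q] (k : Fin n) (θ : ↥(H k) →* Q) (V : Subgroup (K ≃ₐ[F] K)),
      IsOpen (V : Set (K ≃ₐ[F] K)) → (∀ x : ↥(H k), (x : K ≃ₐ[F] K) ∈ V → θ x = 1) →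
      IsOpen (θ.ker : Set ↥(H k)) := by
    intro Q _ k θ V hV hV1
    refine open_of_sub (V := V.comap (H k).subtype) ?_ fun x hx => hV1 x hx
    exact hV.preimage continuous_subtype_val
  obtain ⟨Ψ, ⟨hΨo, hΨ⟩, -⟩ := hfree (DihedralGroup 4) ⟨3, hcard⟩
    (fun k => MonoidHom.mk' (fun x : ↥(H k) => φ k x) fun x y => (hφ k).mul x x.2 y y.2)
    (fun k => by
      obtain ⟨V, hV, hV1⟩ := (hφ k).cont
      exact hopen k _ V hV fun x hx => hV1 x hx x.2)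
  have hcard2 : Nat.card (ℤˣ × ℤˣ) = 2 ^ 2 := by
    rw [Nat.card_prod, Nat.card_eq_fintype_card]
    rfl
  obtain ⟨Ψ', -, huniq⟩ := hfree (ℤˣ × ℤˣ) ⟨2, hcard2⟩ (fun k => ψ.comp (H k).subtype)
    (fun k => hopen k _ (Va ⊓ Vb) hVo fun x hx => hψV x hx)
  have e1 : ψ = Ψ' := huniq ψ ⟨hψker, fun k x => rfl⟩
  have e2 : (h₁.prod h₂).comp Ψ = Ψ' := by
    refine huniq _ ⟨open_of_sub hΨo fun v hv => ?_, fun k x => ?_⟩
    · rw [MonoidHom.mem_ker] at hv ⊢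
      rw [MonoidHom.comp_apply, hv, map_one]
    · rw [MonoidHom.comp_apply, hΨ k x]
      exact hφψ k x x.2
  have e3 : ∀ g, (h₁.prod h₂) (Ψ g) = ψ g := by
    intro g
    rw [e1, ← e2]
    rfl
  have ea : ∀ g, h₁ (Ψ g) = chi a g := fun g => congrArg Prod.fst (e3 g)
  have eb : ∀ g, h₂ (Ψ g) = chi b g := fun g => congrArg Prod.snd (e3 g)
  refine dih_nm hL F K h2 a b ha hb hs ht Ψ ⟨fun g _ h _ => Ψ.map_mul g h, Ψ.ker, hΨo,
    fun v hv _ => hv⟩ ?_ ?_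
  · intro g
    rw [ea g]
    exact chi_spec hs g
  · intro g
    rw [eb g]
    exact chi_spec ht g

end Pool.Agent.P8H57.FP
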