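import Pool.Agent.P8H47.FP.Stm5
import Pool.Agent.P8H55.EC2.Ap

/-!
# Project FP, packages CLO and APO: approximation for valuation rings and orderings
-/

set_option autoImplicit false

namespace Pool.Agent.P8H57.FP

open Pool.Agent.P8H47.FP Pool.Agent.P8H47.EC2 Pool.Agent.P8H55.EC2

section Ord

variable {R : Type} [Field R] [LinearOrder R] [IsStrictOrderedRing R]

theorem near_mul {x y : R} {M : ℕ} (hx : |x - 1| * (3 * M : ℕ) ≤ 1) (hy : |y - 1| * (3 * M : ℕ) ≤ 1) :
    |x * y - 1| * M ≤ 1 := by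
  rcases Nat.eq_zero_or_pos M with h0 | h0
  · rw [h0, Nat.cast_zero, mul_zero]
    exact zero_le_one
  have hM : (1 : R) ≤ M := by exact_mod_cast h0
  push_cast at hx hy
  obtain ⟨p, hp⟩ : ∃ p, p = |x - 1| := ⟨_, rfl⟩
  obtain ⟨r, hr⟩ : ∃ r, r = |y - 1| := ⟨_, rfl⟩
  rw [← hp] at hx
  rw [← hr] at hy
  have hp0 : 0 ≤ p := by rw [hp]; exact abs_nonneg _
  have hr0 : 0 ≤ r := by rw [hr]; exact abs_nonneg _
  have h1 : |x * y - 1| ≤ p + r + p * r := by
    have e : x * y - 1 = (x - 1) + (y - 1) + (x - 1) * (y - 1) := by ring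
    rw [e, hp, hr]
    refine (abs_add_le _ _).trans (add_le_add (abs_add_le _ _) ?_)
    rw [abs_mul]
  have h2 : r ≤ 1 := by nlinarith
  have h3 : p * r * M ≤ p * M := by nlinarith [mul_nonneg hp0 (by linarith : (0 : R) ≤ M)]
  have h4 : |x * y - 1| * M ≤ (p + r + p * r) * M := mul_le_mul_of_nonneg_right h1 (by linarith)
  nlinarith

theorem near_mono {x : R} {M N : ℕ} (h : M ≤ N) {t : R} (hx : |x| * N ≤ t) : |x| * M ≤ t := by
  refine le_trans (mul_le_mul_of_nonneg_left ?_ (abs_nonneg _)) hx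
  exact_mod_cast h

theorem prod_near {ι : Type} (t : Finset ι) (x : ι → R) :
    ∀ M : ℕ, (∀ r ∈ t, |x r - 1| * (3 ^ t.card * M : ℕ) ≤ 1) → |∏ r ∈ t, x r - 1| * M ≤ 1 := by
  classical
  induction t using Finset.induction_on with
  | empty =>
    intro M _
    simp
  | insert r t hr ih =>
    intro M h
    rw [Finset.card_insert_of_notMem hr] at h
    rw [Finset.prod_insert hr]
    have e : 3 ^ (t.card + 1) * M = 3 ^ t.card * (3 * M) := by ring
    rw [e] at h
    refine near_mul ?_ (ih (3 * M) fun i hi => h i (Finset.mem_insert_of_mem hi))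
    exact near_mono (Nat.le_mul_of_pos_left _ (by positivity)) (h r (Finset.mem_insert_self _ _))

theorem inv_near {x : R} {N : ℕ} (hx : |x - 1| * (N + 2 : ℕ) ≤ 1) :
    x ≠ 0 ∧ |x⁻¹ - 1| * N ≤ 1 := by
  obtain ⟨p, hp⟩ : ∃ p, p = |x - 1| := ⟨_, rfl⟩
  rw [← hp] at hx
  have hp0 : 0 ≤ p := by rw [hp]; exact abs_nonneg _
  push_cast at hx
  have hN : (0 : R) ≤ N := Nat.cast_nonneg _
  have hx1 : 1 - p ≤ |x| := by
    have := abs_sub_abs_le_abs_sub (1 : R) x
    rw [abs_one, abs_sub_comm, ← hp] at this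
    linarith
  have hpN : 0 ≤ p * N := mul_nonneg hp0 hN
  have hxpos : 0 < |x| := by nlinarith
  have hx0 : x ≠ 0 := abs_pos.1 hxpos
  refine ⟨hx0, ?_⟩
  have e : x⁻¹ - 1 = (1 - x) / x := by
    field_simp
  rw [e, abs_div, abs_sub_comm, ← hp, div_mul_eq_mul_div, div_le_one hxpos]
  nlinarith

end Ord

/-- package APO -/
theorem apo : S_APO := by
  classical
  intro hcl F _ ι q s N n a hn hU
  obtain ⟨N', hN'⟩ : ∃ N' : ℕ, N' = 3 ^ s.card * N := ⟨_, rfl⟩
  have h1 : ∀ r, ∃ c : Fˣ, r ∈ s → (∀ i ∈ s.erase r, Near N' (q i) (n i) 1 c) ∧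
      Near N' (q r) (n r) (a r) c := by
    intro r
    by_cases hr : r ∈ s
    · obtain ⟨c, hc⟩ := hcl F ι q (s.erase r) r (Finset.notMem_erase _ _)
        (fun i hi => (hU i (Finset.mem_of_mem_erase hi) r hr (Finset.ne_of_mem_erase hi)).1)
        N' n (a r)
        (fun i hi => by
          rcases hi with rfl | hi
          · exact hn i hr
          · exact hn i (Finset.mem_of_mem_erase hi))
        (fun i hi => by
          have h2 := hU i (Finset.mem_of_mem_erase hi) r hr (Finset.ne_of_mem_erase hi)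
          have h3 := hU r hr i (Finset.mem_of_mem_erase hi) (Finset.ne_of_mem_erase hi).symm
          exact ⟨h2.2.1, UU_symm h3.2.1, UU_symm h3.2.2⟩)
      exact ⟨c, fun _ => hc⟩
    · exact ⟨1, fun h => absurd h hr⟩
  choose c hc using h1
  refine ⟨∏ r ∈ s, c r, fun i hi => ?_⟩
  have hni := hn i hi
  have hci := (hc i hi).2
  have hcr : ∀ r ∈ s, r ≠ i → Near N' (q i) (n i) 1 (c r) := fun r hr hri =>
    (hc r hr).1 i (Finset.mem_erase.2 ⟨hri.symm, hi⟩)
  rcases hq : q i with O | e
  · rw [hq] at hni hci hcr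
    obtain ⟨hni, -⟩ := hni
    have h2 : ∀ t ⊆ s.erase i, ∃ b ∈ O, ((∏ r ∈ t, c r : Fˣ) : F) = 1 + n i * b := by
      intro t
      induction t using Finset.induction_on with
      | empty => intro _; exact ⟨0, O.zero_mem, by simp⟩
      | insert r t hr ih =>
        intro hs
        obtain ⟨b, hb, e1⟩ := ih ((Finset.subset_insert _ _).trans hs)
        have hr' := hs (Finset.mem_insert_self _ _)
        obtain ⟨d, hd, e2⟩ := hcr r (Finset.mem_of_mem_erase hr') (Finset.ne_of_mem_erase hr')
        refine ⟨b + d + n i * (b * d), ?_, ?_⟩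
        · exact O.add_mem _ _ (O.add_mem _ _ hb hd) (O.mul_mem _ _ hni (O.mul_mem _ _ hb hd))
        · rw [Finset.prod_insert hr, Units.val_mul, e1, e2]
          ring
    obtain ⟨b, hb, e1⟩ := h2 _ subset_rfl
    obtain ⟨d, hd, e2⟩ := hci
    refine ⟨b + d + n i * (b * d), ?_, ?_⟩
    · exact O.add_mem _ _ (O.add_mem _ _ hb hd) (O.mul_mem _ _ hni (O.mul_mem _ _ hb hd))
    · rw [← Finset.mul_prod_erase s c hi, Units.val_mul, e1, e2]
      ring
  · rw [hq] at hci hcr
    change |e.f (c i) - e.f (a i)| * N' ≤ |e.f (a i)| at hci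
    change |e.f ((∏ r ∈ s, c r : Fˣ) : F) - e.f (a i)| * N ≤ |e.f (a i)|
    have ha0 : e.f (a i) ≠ 0 := by
      rw [map_ne_zero]
      exact (a i).ne_zero
    have hapos : 0 < |e.f (a i)| := abs_pos.2 ha0
    obtain ⟨x, hx⟩ : ∃ x : ι → e.R, x = fun r => if r = i then e.f (c i) / e.f (a i) else e.f (c r) :=
      ⟨_, rfl⟩
    have hxi : x i = e.f (c i) / e.f (a i) := by rw [hx]; simp
    have hxr : ∀ r, r ≠ i → x r = e.f (c r) := fun r hr => by rw [hx]; simp [hr]
    have h3 : |∏ r ∈ s, x r - 1| * N ≤ 1 := by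
      apply prod_near
      intro r hr
      rw [← hN']
      by_cases hri : r = i
      · subst hri
        rw [hxi]
        have e1 : e.f (c r) / e.f (a r) - 1 = (e.f (c r) - e.f (a r)) / e.f (a r) := by
          field_simp
        rw [e1, abs_div, div_mul_eq_mul_div, div_le_one hapos]
        exact hci
      · rw [hxr r hri]
        have h4 := hcr r hr hri
        change |e.f (c r) - e.f 1| * N' ≤ |e.f 1| at h4
        rwa [map_one, abs_one] at h4
    have h5 : e.f ((∏ r ∈ s, c r : Fˣ) : F) = e.f (a i) * ∏ r ∈ s, x r := by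
      rw [← Finset.mul_prod_erase s c hi, Units.val_mul, map_mul, ← Finset.mul_prod_erase s x hi,
        hxi, ← mul_assoc, mul_div_cancel₀ _ ha0, Units.coe_prod, map_prod]
      congr 1
      exact Finset.prod_congr rfl fun r hr => (hxr r (Finset.ne_of_mem_erase hr)).symm
    rw [h5]
    have e2 : e.f (a i) * ∏ r ∈ s, x r - e.f (a i) = e.f (a i) * (∏ r ∈ s, x r - 1) := by ring
    rw [e2, abs_mul, mul_assoc]
    exact mul_le_of_le_one_right hapos.le h3

open Classical in
/-- the tolerances at the small places -/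
noncomputable def ya {F : Type} [Field F] (n a : Fˣ) : Place F → Fˣ
  | .inl O => if (a : F) ∈ O then n else n * a⁻¹
  | .inr e => if |e.f a| ≤ 1 then 1 else a⁻¹

open Classical in
/-- the tolerance at the large place -/
noncomputable def yr {F : Type} [Field F] (n a : Fˣ) : Place F → Fˣ
  | .inl _ => n * a
  | .inr e => if |e.f a| ≤ 1 then a else 1

/-- the case in which `a` is integral, or the place is an ordering -/
def InR {F : Type} [Field F] (a : Fˣ) : Place F → Prop
  | .inl O => (a : F) ∈ O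
  | .inr _ => True

theorem clo_key (hel : C_ELO) (F : Type) [Field F] (ι : Type) (q : ι → Place F) (s : Finset ι)
    (r : ι) (hr : r ∉ s) (hsep : ∀ i ∈ s, PSep (q i) (q r)) (N : ℕ) (n : ι → Fˣ) (a : Fˣ)
    (hn : ∀ i, i = r ∨ i ∈ s → Mx (q i) (n i))
    (hU : ∀ i ∈ s, n i ∈ UU (Rg (q i)) (Rg (q r)) ∧ n r ∈ UU (Rg (q i)) (Rg (q r)) ∧
      a ∈ UU (Rg (q i)) (Rg (q r))) (har : InR a (q r)) :
    ∃ c : Fˣ, (∀ i ∈ s, Near N (q i) (n i) 1 c) ∧ Near N (q r) (n r) a c := by
  classical
  obtain ⟨M, hM⟩ : ∃ M : ℕ, M = N + 2 := ⟨_, rfl⟩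
  have hNM : N ≤ M := by omega
  obtain ⟨y, hy⟩ : ∃ y : ι → Fˣ, y = fun i => if i = r then yr (n r) a (q r) else ya (n i) a (q i) :=
    ⟨_, rfl⟩
  have hyr : y r = yr (n r) a (q r) := by rw [hy]; simp
  have hyi : ∀ i ∈ s, y i = ya (n i) a (q i) := fun i hi => by
    have : i ≠ r := fun h => hr (h ▸ hi)
    rw [hy]
    simp [this]
  obtain ⟨e, h1, h2⟩ := hel F ι q s r hr hsep (2 * M) y
    (by
      rintro i (rfl | hi)
      · rw [hyr]
        have hni := hn i (Or.inl rfl)
        rcases hq : q i with O | e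
        · rw [hq] at har hni
          show ((n i * a : Fˣ) : F) ∈ O
          rw [Units.val_mul]
          exact O.mul_mem _ _ hni.1 har
        · show |e.f (((if |e.f a| ≤ 1 then a else 1 : Fˣ) : Fˣ) : F)| ≤ 1
          split_ifs with h
          · exact h
          · rw [Units.val_one, map_one, abs_one]
      · rw [hyi i hi]
        have hni := hn i (Or.inr hi)
        rcases hq : q i with O | e
        · rw [hq] at hni
          show (((if (a : F) ∈ O then n i else n i * a⁻¹ : Fˣ) : Fˣ) : F) ∈ O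
          split_ifs with h
          · exact hni.1
          · rw [Units.val_mul, Units.val_inv_eq_inv_val]
            exact O.mul_mem _ _ hni.1 ((O.mem_or_inv_mem (a : F)).resolve_left h)
        · show |e.f (((if |e.f a| ≤ 1 then 1 else a⁻¹ : Fˣ) : Fˣ) : F)| ≤ 1
          split_ifs with h
          · rw [Units.val_one, map_one, abs_one]
          · rw [Units.val_inv_eq_inv_val, map_inv₀, abs_inv]
            exact inv_le_one_of_one_le₀ (le_of_lt (not_le.1 h)))
    (by
      intro i hi
      obtain ⟨u1, u2, u3⟩ := hU i hi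
      refine ⟨?_, ?_⟩
      · rw [hyi i hi]
        generalize Rg (q i) = A at u1 u2 u3 ⊢
        generalize Rg (q r) = B at u1 u2 u3 ⊢
        rcases q i with O | e
        · show (if (a : F) ∈ O then n i else n i * a⁻¹ : Fˣ) ∈ UU A B
          split_ifs with h
          · exact u1
          · exact mul_mem u1 (inv_mem u3)
        · show (if |e.f a| ≤ 1 then 1 else a⁻¹ : Fˣ) ∈ UU A B
          split_ifs with h
          · exact one_mem _
          · exact inv_mem u3
      · rw [hyr]
        generalize Rg (q i) = A at u1 u2 u3 ⊢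
        generalize Rg (q r) = B at u1 u2 u3 ⊢
        rcases q r with O | e
        · show n r * a ∈ UU A B
          exact mul_mem u2 u3
        · show (if |e.f a| ≤ 1 then a else 1 : Fˣ) ∈ UU A B
          split_ifs with h
          · exact u3
          · exact one_mem _)
  -- the solution
  obtain ⟨c₀, hc₀⟩ : ∃ c₀ : F, c₀ = 1 + ((a : F) - 1) * e := ⟨_, rfl⟩
  have hres : c₀ ≠ 0 ∧ Near N (q r) (n r) a c₀ := by
    rw [hyr] at h2
    have hnr := hn r (Or.inl rfl)
    rcases hq : q r with O | o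
    · rw [hq] at har hnr h2
      obtain ⟨b, hb, e2⟩ := h2
      have e2' : e - 1 = (n r * a : F) * b := by
        rw [← Units.val_mul]
        exact e2
      have hb' : ((a : F) - 1) * b ∈ O := O.mul_mem _ _ (sub_mem har O.one_mem) hb
      have hc : c₀ = a * (1 + n r * ((a - 1) * b)) := by
        rw [hc₀]
        linear_combination ((a : F) - 1) * e2'
      refine ⟨?_, _, hb', hc⟩
      rw [hc]
      exact mul_ne_zero a.ne_zero (oneAdd hnr.1 hnr.2 hb').1
    · rw [hq] at h2
      have h2' : |o.f (e - 1)| * (2 * M : ℕ) ≤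
          |o.f (((if |o.f a| ≤ 1 then a else 1 : Fˣ) : Fˣ) : F)| := h2
      have ha0 : o.f (a : F) ≠ 0 := by
        rw [map_ne_zero]
        exact a.ne_zero
      have hapos : 0 < |o.f (a : F)| := abs_pos.2 ha0
      have ec : o.f c₀ - o.f a = (o.f a - 1) * o.f (e - 1) := by
        rw [hc₀]
        simp only [map_add, map_mul, map_sub, map_one]
        ring
      have hkey : |o.f c₀ - o.f a| * M ≤ |o.f (a : F)| := by
        rw [ec, abs_mul]
        have hM0 : (0 : o.R) ≤ M := Nat.cast_nonneg _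
        have hp := abs_nonneg (o.f (e - 1))
        push_cast at h2'
        have h3 : |o.f (a : F) - 1| ≤ |o.f (a : F)| + 1 := by
          have := abs_sub (o.f (a : F)) 1
          rwa [abs_one] at this
        split_ifs at h2' with h
        · have h4 : |o.f (a : F) - 1| * |o.f (e - 1)| ≤ 2 * |o.f (e - 1)| :=
            mul_le_mul_of_nonneg_right (by linarith) hp
          have h5 := mul_le_mul_of_nonneg_right h4 hM0
          linarith
        · rw [Units.val_one, map_one, abs_one] at h2'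
          have h' := le_of_lt (not_le.1 h)
          have h4 : |o.f (a : F) - 1| * |o.f (e - 1)| ≤ (2 * |o.f (a : F)|) * |o.f (e - 1)| :=
            mul_le_mul_of_nonneg_right (by linarith) hp
          have h5 := mul_le_mul_of_nonneg_right h4 hM0
          have h6 := mul_le_mul_of_nonneg_left h2' hapos.le
          linarith
      refine ⟨?_, near_mono hNM hkey⟩
      rintro h0
      rw [h0, map_zero, zero_sub, abs_neg] at hkey
      have : (2 : o.R) ≤ M := by
        have : 2 ≤ M := by omega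
        exact_mod_cast this
      nlinarith
  obtain ⟨hc0, hcr⟩ := hres
  refine ⟨Units.mk0 c₀ hc0, fun i hi => ?_, hcr⟩
  rw [Units.val_mk0]
  have h3 := h1 i hi
  rw [hyi i hi] at h3
  rcases hq : q i with O | o
  · rw [hq] at h3
    obtain ⟨d, hd, e3⟩ := h3
    have e3' : e = (((if (a : F) ∈ O then n i else n i * a⁻¹ : Fˣ) : Fˣ) : F) * d := e3
    split_ifs at e3' with h
    · refine ⟨((a : F) - 1) * d, O.mul_mem _ _ (sub_mem h O.one_mem) hd, ?_⟩
      rw [hc₀, e3']; ring
    · have h' := (O.mem_or_inv_mem (a : F)).resolve_left h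
      refine ⟨(1 - (a : F)⁻¹) * d, O.mul_mem _ _ (sub_mem O.one_mem h') hd, ?_⟩
      rw [hc₀, e3', Units.val_mul, Units.val_inv_eq_inv_val]
      have := a.ne_zero
      field_simp
  · rw [hq] at h3
    have h3' : |o.f e| * (2 * M : ℕ) ≤
        |o.f (((if |o.f a| ≤ 1 then 1 else a⁻¹ : Fˣ) : Fˣ) : F)| := h3
    show |o.f c₀ - o.f 1| * N ≤ |o.f 1|
    apply near_mono hNM
    rw [map_one, abs_one]
    have ha0 : o.f (a : F) ≠ 0 := by
      rw [map_ne_zero]
      exact a.ne_zero
    have hapos : 0 < |o.f (a : F)| := abs_pos.2 ha0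
    have ec : o.f c₀ - 1 = (o.f a - 1) * o.f e := by
      rw [hc₀]
      simp only [map_add, map_mul, map_sub, map_one]
      ring
    rw [ec, abs_mul]
    have hM0 : (0 : o.R) ≤ M := Nat.cast_nonneg _
    have hp := abs_nonneg (o.f e)
    push_cast at h3'
    have h4 : |o.f (a : F) - 1| ≤ |o.f (a : F)| + 1 := by
      have := abs_sub (o.f (a : F)) 1
      rwa [abs_one] at this
    split_ifs at h3' with h
    · rw [Units.val_one, map_one, abs_one] at h3'
      have h5 : |o.f (a : F) - 1| * |o.f e| ≤ 2 * |o.f e| :=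
        mul_le_mul_of_nonneg_right (by linarith) hp
      have h6 := mul_le_mul_of_nonneg_right h5 hM0
      linarith
    · rw [Units.val_inv_eq_inv_val, map_inv₀, abs_inv] at h3'
      have h' := le_of_lt (not_le.1 h)
      have h5 : |o.f (a : F) - 1| * |o.f e| ≤ (2 * |o.f (a : F)|) * |o.f e| :=
        mul_le_mul_of_nonneg_right (by linarith) hp
      have h6 := mul_le_mul_of_nonneg_right h5 hM0
      have h7 := mul_le_mul_of_nonneg_left h3' hapos.le
      rw [mul_inv_cancel₀ hapos.ne'] at h7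
      linarith

/-- package CLO -/
theorem clo : S_CLO := by
  intro hel F _ ι q s r hr hsep N n a hn hU
  by_cases har : InR a (q r)
  · exact clo_key hel F ι q s r hr hsep N n a hn hU har
  · have har' : InR a⁻¹ (q r) := by
      rcases hq : q r with O | e
      · rw [hq] at har
        show ((a⁻¹ : Fˣ) : F) ∈ O
        rw [Units.val_inv_eq_inv_val]
        exact (O.mem_or_inv_mem (a : F)).resolve_left har
      · exact trivial
    obtain ⟨c, h1, h2⟩ := clo_key hel F ι q s r hr hsep (N + 2) n a⁻¹ hn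
      (fun i hi => ⟨(hU i hi).1, (hU i hi).2.1, inv_mem (hU i hi).2.2⟩) har'
    refine ⟨c⁻¹, fun i hi => ?_, ?_⟩
    · have h3 := h1 i hi
      have hni := hn i (Or.inr hi)
      rcases hq : q i with O | o
      · rw [hq] at h3 hni
        obtain ⟨d, hd, e⟩ := h3
        obtain ⟨d', hd', e'⟩ := (oneAdd hni.1 hni.2 hd).2
        refine ⟨d', hd', ?_⟩
        rw [Units.val_inv_eq_inv_val, e, one_mul, one_mul, e']
      · rw [hq] at h3
        have h4 : |o.f c - o.f 1| * (N + 2 : ℕ) ≤ |o.f 1| := h3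
        rw [map_one, abs_one] at h4
        show |o.f ((c⁻¹ : Fˣ) : F) - o.f 1| * N ≤ |o.f 1|
        rw [map_one, abs_one, Units.val_inv_eq_inv_val, map_inv₀]
        exact (inv_near h4).2
    · have hnr := hn r (Or.inl rfl)
      rcases hq : q r with O | o
      · rw [hq] at h2 hnr
        obtain ⟨b, hb, h2⟩ := h2
        obtain ⟨d', hd', e'⟩ := (oneAdd hnr.1 hnr.2 hb).2
        refine ⟨d', hd', ?_⟩
        rw [Units.val_inv_eq_inv_val, h2, mul_inv, e', Units.val_inv_eq_inv_val, inv_inv]
      · exfalso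
        apply har
        rw [hq]
        exact trivial

end Pool.Agent.P8H57.FP
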