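import Pool.Agent.P8H47.FP.Stm5
import Pool.Agent.P8H55.EC2.Ap

/-!
# Project FP, package ELO: elements near to `0` at some places and near to `1` at another one
-/

set_option autoImplicit false

namespace Pool.Agent.P8H57.FP

open Pool.Agent.P8H47.FP Pool.Agent.P8H47.EC2 Pool.Agent.P8H55.EC2

section Ord

variable {R : Type} [Field R] [LinearOrder R] [IsStrictOrderedRing R]

theorem elo_a {w g Y : R} {M : ℕ} (hM : 1 ≤ M) (hw : w ≤ 1) (h : 1 - w ≤ g ^ 2)
    (hg : |g| * M ≤ |Y|) (hY : |Y| ≤ 1) : |1 - w| * M ≤ |Y| := by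
  have hM' : (1 : R) ≤ M := by exact_mod_cast hM
  have h0 := abs_nonneg g
  have h1 : |g| ≤ 1 := by nlinarith
  have h2 : g ^ 2 ≤ |g| := by
    rw [← sq_abs]
    nlinarith
  rw [abs_of_nonneg (by linarith : 0 ≤ 1 - w)]
  have h3 : (1 - w) * M ≤ |g| * M := mul_le_mul_of_nonneg_right (by linarith) (by linarith)
  linarith

theorem elo_b {w g Y : R} {M : ℕ} (hM : 1 ≤ M) (hw : 0 < w) (hg0 : g ≠ 0) (h : w * g ^ 2 ≤ 1)
    (hg : |g⁻¹| * M ≤ |Y|) (hY : |Y| ≤ 1) : |1 - w - 1| * M ≤ |Y| := by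
  have hM' : (1 : R) ≤ M := by exact_mod_cast hM
  obtain ⟨k, hk⟩ : ∃ k, k = g⁻¹ := ⟨_, rfl⟩
  rw [← hk] at hg
  have h0 := abs_nonneg k
  have h1 : |k| ≤ 1 := by nlinarith
  have h2 : k ^ 2 ≤ |k| := by
    rw [← sq_abs]
    nlinarith
  have h4 : w ≤ k ^ 2 := by
    have e : w = w * g ^ 2 * k ^ 2 := by
      rw [hk]
      field_simp
    have : w * g ^ 2 * k ^ 2 ≤ 1 * k ^ 2 := mul_le_mul_of_nonneg_right h (sq_nonneg _)
    linarith
  have h5 : (1 : R) - w - 1 = -w := by ring
  rw [h5, abs_neg, abs_of_pos hw]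
  have h3 : w * M ≤ |k| * M := mul_le_mul_of_nonneg_right (by linarith) (by linarith)
  linarith

theorem elo_prod {ι : Type} (t : Finset ι) (x : ι → R) {M : ℕ} {Y : R} (_hY : 0 ≤ Y)
    (h0 : ∀ i ∈ t, 0 ≤ x i) (h1 : ∀ i ∈ t, x i ≤ 1) (h : ∀ i ∈ t, |x i - 1| * M ≤ Y) :
    (0 ≤ ∏ i ∈ t, x i ∧ ∏ i ∈ t, x i ≤ 1) ∧ (1 - ∏ i ∈ t, x i) * M ≤ t.card * Y := by
  classical
  have h01 : ∀ t' : Finset ι, (∀ i ∈ t', 0 ≤ x i) → (∀ i ∈ t', x i ≤ 1) →
      0 ≤ ∏ i ∈ t', x i ∧ ∏ i ∈ t', x i ≤ 1 := fun t' ha hb =>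
    ⟨Finset.prod_nonneg ha, Finset.prod_le_one ha hb⟩
  refine ⟨h01 t h0 h1, ?_⟩
  induction t using Finset.induction_on with
  | empty => simp
  | insert r t hr ih =>
    have ih' := ih (fun i hi => h0 i (Finset.mem_insert_of_mem hi))
      (fun i hi => h1 i (Finset.mem_insert_of_mem hi)) (fun i hi => h i (Finset.mem_insert_of_mem hi))
    obtain ⟨hp0, hp1⟩ := h01 t (fun i hi => h0 i (Finset.mem_insert_of_mem hi))
      (fun i hi => h1 i (Finset.mem_insert_of_mem hi))
    have hr0 := h0 r (Finset.mem_insert_self _ _)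
    have hr1 := h1 r (Finset.mem_insert_self _ _)
    have hr2 := h r (Finset.mem_insert_self _ _)
    rw [Finset.prod_insert hr, Finset.card_insert_of_notMem hr]
    rw [abs_sub_comm, abs_of_nonneg (by linarith : 0 ≤ 1 - x r)] at hr2
    push_cast
    have hM : (0 : R) ≤ M := Nat.cast_nonneg _
    have h5 : 1 - x r * ∏ i ∈ t, x i ≤ (1 - x r) + (1 - ∏ i ∈ t, x i) := by nlinarith
    have h6 := mul_le_mul_of_nonneg_right h5 hM
    linarith

end Ord

/-- package ELO -/
theorem elo : S_ELO := by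
  classical
  intro eo fo F _ ι q s r hr hsep N y hy hU
  obtain ⟨N', hN'⟩ : ∃ N' : ℕ, N' = N * s.card + 1 := ⟨_, rfl⟩
  have hN1 : 1 ≤ N' := by omega
  have h1 : ∀ i, ∃ e : F, i ∈ s → Sm N' (q i) (y i) e ∧ Sm N' (q r) (y r) (e - 1) ∧
      (∀ j ∈ insert r s, ∀ O, q j = .inl O → e ∈ O) ∧
      ∀ j ∈ insert r s, ∀ o, q j = .inr o → 0 ≤ o.f e ∧ o.f e ≤ 1 := by
    intro i
    by_cases hi : i ∈ s
    · obtain ⟨g, hg1, hg2⟩ := fo F (q i) (q r) (hsep i hi) N' (y i) (y r) (hU i hi).1 (hU i hi).2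
      obtain ⟨w, hw0, hwv, hwo⟩ := eo F ι q (insert r s) g
      refine ⟨1 - w, fun _ => ⟨?_, ?_, fun j hj O hO => ?_, fun j hj o ho => ?_⟩⟩
      · have hyi := hy i (Or.inr hi)
        have hwv' := hwv i (Finset.mem_insert_of_mem hi)
        have hwo' := hwo i (Finset.mem_insert_of_mem hi)
        rcases hq : q i with O | o
        · rw [hq] at hg1 hyi
          obtain ⟨b, hb, e1⟩ := hg1
          obtain ⟨c, hc, e3⟩ := (hwv' O hq).2.1 (by rw [e1]; exact O.mul_mem _ _ hyi hb)
          refine ⟨-(b * c), O.neg_mem _ (O.mul_mem _ _ hb hc), ?_⟩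
          rw [e1] at e3
          linear_combination -e3
        · rw [hq] at hg1 hyi
          obtain ⟨h3, h4, h5, h6⟩ := hwo' o hq
          have h7 := elo_a hN1 h4 h6 hg1 hyi
          change |o.f (1 - w)| * N' ≤ |o.f (y i)|
          rw [map_sub, map_one]
          exact h7
      · have hyr := hy r (Or.inl rfl)
        have hwv' := hwv r (Finset.mem_insert_self _ _)
        have hwo' := hwo r (Finset.mem_insert_self _ _)
        rcases hq : q r with O | o
        · rw [hq] at hg2 hyr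
          obtain ⟨b, hb, e1⟩ := hg2
          rw [Units.val_inv_eq_inv_val] at e1
          obtain ⟨c, hc, e3⟩ := (hwv' O hq).2.2 (by rw [e1]; exact O.mul_mem _ _ hyr hb)
          refine ⟨-(b * c), O.neg_mem _ (O.mul_mem _ _ hb hc), ?_⟩
          rw [e1] at e3
          linear_combination -e3
        · rw [hq] at hg2 hyr
          obtain ⟨h3, h4, h5, h6⟩ := hwo' o hq
          have hg3 : |(o.f (g : F))⁻¹| * N' ≤ |o.f (y r)| := by
            have hg2' : |o.f ((g⁻¹ : Fˣ) : F)| * N' ≤ |o.f (y r)| := hg2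
            rwa [Units.val_inv_eq_inv_val, map_inv₀] at hg2'
          have h7 := elo_b hN1 h3 ((map_ne_zero _).2 g.ne_zero) h5 hg3 hyr
          change |o.f (1 - w - 1)| * N' ≤ |o.f (y r)|
          rw [map_sub, map_sub, map_one]
          exact h7
      · exact sub_mem O.one_mem (hwv j hj O hO).1
      · obtain ⟨h3, h4, -, -⟩ := hwo j hj o ho
        rw [map_sub, map_one]
        exact ⟨by linarith, by linarith⟩
    · exact ⟨0, fun h => absurd h hi⟩
  choose e he using h1
  refine ⟨∏ i ∈ s, e i, fun i hi => ?_, ?_⟩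
  · have hi' : i ∈ insert r s := Finset.mem_insert_of_mem hi
    have h2 := (he i hi).1
    rcases hq : q i with O | o
    · rw [hq] at h2
      obtain ⟨b, hb, e1⟩ := h2
      refine ⟨b * ∏ j ∈ s.erase i, e j, O.mul_mem _ _ hb
        (prod_mem fun j hj => (he j (Finset.mem_of_mem_erase hj)).2.2.1 i hi' O hq), ?_⟩
      rw [← Finset.mul_prod_erase s e hi, e1, mul_assoc]
    · rw [hq] at h2
      change |o.f (∏ i ∈ s, e i)| * N ≤ |o.f (y i)|
      have h2' : |o.f (e i)| * N' ≤ |o.f (y i)| := h2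
      rw [map_prod, ← Finset.mul_prod_erase s (fun j => o.f (e j)) hi, abs_mul]
      have h3 : |∏ j ∈ s.erase i, o.f (e j)| ≤ 1 := by
        have h4 : ∀ j ∈ s.erase i, 0 ≤ o.f (e j) := fun j hj =>
          ((he j (Finset.mem_of_mem_erase hj)).2.2.2 i hi' o hq).1
        rw [abs_of_nonneg (Finset.prod_nonneg h4)]
        exact Finset.prod_le_one h4 fun j hj =>
          ((he j (Finset.mem_of_mem_erase hj)).2.2.2 i hi' o hq).2
      have h5 : |o.f (e i)| * |∏ j ∈ s.erase i, o.f (e j)| ≤ |o.f (e i)| :=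
        mul_le_of_le_one_right (abs_nonneg _) h3
      have h6 : (N : o.R) ≤ N' := by
        have : N ≤ N' := by
          have : 1 ≤ s.card := Finset.card_pos.2 ⟨i, hi⟩
          rw [hN']
          nlinarith
        exact_mod_cast this
      calc |o.f (e i)| * |∏ j ∈ s.erase i, o.f (e j)| * N ≤ |o.f (e i)| * N' :=
            mul_le_mul h5 h6 (Nat.cast_nonneg _) (abs_nonneg _)
        _ ≤ _ := h2'
  · have hyr := hy r (Or.inl rfl)
    rcases hq : q r with O | o
    · rw [hq] at hyr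
      have h2 : ∀ t ⊆ s, ∃ b ∈ O, ∏ i ∈ t, e i - 1 = y r * b := by
        intro t
        induction t using Finset.induction_on with
        | empty => intro _; exact ⟨0, O.zero_mem, by simp⟩
        | insert a t ha ih =>
          intro hs
          obtain ⟨b, hb, e1⟩ := ih ((Finset.subset_insert _ _).trans hs)
          have h3 := (he a (hs (Finset.mem_insert_self _ _))).2.1
          rw [hq] at h3
          obtain ⟨c, hc, e2⟩ := h3
          refine ⟨b + c + y r * (b * c), ?_, ?_⟩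
          · exact O.add_mem _ _ (O.add_mem _ _ hb hc) (O.mul_mem _ _ hyr (O.mul_mem _ _ hb hc))
          · rw [Finset.prod_insert ha]
            have e3 : e a = 1 + y r * c := by linear_combination e2
            have e4 : ∏ i ∈ t, e i = 1 + y r * b := by linear_combination e1
            rw [e3, e4]
            ring
      exact h2 s subset_rfl
    · change |o.f (∏ i ∈ s, e i - 1)| * N ≤ |o.f (y r)|
      rw [map_sub, map_one, map_prod]
      have hr' : r ∈ insert r s := Finset.mem_insert_self _ _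
      obtain ⟨⟨h3, h4⟩, h5⟩ := elo_prod s (fun i => o.f (e i)) (M := N') (abs_nonneg (o.f (y r)))
        (fun i hi => ((he i hi).2.2.2 r hr' o hq).1) (fun i hi => ((he i hi).2.2.2 r hr' o hq).2)
        (fun i hi => by
          have h6 := (he i hi).2.1
          rw [hq] at h6
          have h7 : |o.f (e i - 1)| * N' ≤ |o.f (y r)| := h6
          rwa [map_sub, map_one] at h7)
      rw [abs_sub_comm, abs_of_nonneg (by linarith)]
      obtain ⟨P, hP⟩ : ∃ P, P = ∏ i ∈ s, o.f (e i) := ⟨_, rfl⟩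
      rw [← hP] at h3 h4 h5 ⊢
      obtain ⟨Y, hY⟩ : ∃ Y, Y = |o.f (y r)| := ⟨_, rfl⟩
      rw [← hY] at h5 ⊢
      have hY0 : 0 ≤ Y := by rw [hY]; exact abs_nonneg _
      rw [hN'] at h5
      push_cast at h5
      rcases Nat.eq_zero_or_pos s.card with h0 | h0
      · rw [h0] at h5
        push_cast at h5
        have h8 : P = 1 := by nlinarith
        rw [h8, sub_self, zero_mul]
        exact hY0
      · have hc : (0 : o.R) < s.card := by exact_mod_cast h0
        have h9 : s.card * ((1 - P) * N) ≤ s.card * Y := by nlinarith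
        exact le_of_mul_le_mul_left h9 hc

end Pool.Agent.P8H57.FP
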