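import Pool.Agent.P8H47.FP.Stm5
import Pool.Agent.P8H53.FP.Ltwo

/-!
# Project FP, package L2O: simultaneous solutions of `X + Y = 1` for valuation rings and orderings
-/

set_option autoImplicit false

namespace Pool.Agent.P8H57.FP

open Pool.Agent.Y920.EP (pwG)
open Pool.Agent.P8H47.EC (PI)
open Pool.Agent.P8H47.FP Pool.Agent.P8H47.EC2 Pool.Agent.P8H53.FP

variable {F : Type} [Field F]

theorem arch_one_add (e : OrdEmb F) (x : F) (_hx : x ∈ Arch e) (hx' : x⁻¹ ∉ Arch e) :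
    ∃ t ∈ Pos e, (t : F) = 1 + x := by
  have h0 : |e.f x| < 1 := by
    by_contra h
    rw [not_lt] at h
    apply hx'
    refine ⟨1, ?_⟩
    rw [map_inv₀, abs_inv, Nat.cast_one]
    exact inv_le_one_of_one_le₀ h
  have h1 : 0 < e.f (1 + x) := by
    rw [map_add, map_one]
    have := (abs_lt.1 h0).1
    linarith
  have h2 : 1 + x ≠ 0 := by
    intro h
    rw [h, map_zero] at h1
    exact lt_irrefl _ h1
  exact ⟨Units.mk0 _ h2, h1, rfl⟩

theorem sq_le_pos (e : OrdEmb F) : pwG F 2 ≤ Pos e := by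
  rintro _ ⟨c, rfl⟩
  change 0 < e.f ((c ^ 2 : Fˣ) : F)
  rw [Units.val_pow_eq_pow_val, map_pow]
  have : e.f c ≠ 0 := (map_ne_zero _).2 c.ne_zero
  positivity

theorem jf_UU' {p : ℕ} {T T' : Subgroup Fˣ} {O O' : ValuationSubring F} {J : Set F}
    (h : Dat p T O J) (hpw : pwG F p ≤ T')
    (h' : ∀ x : F, x ∈ O' → x⁻¹ ∉ O' → ∃ t ∈ T', (t : F) = 1 + x) (hne : ¬ T ≤ T') {u : Fˣ}
    (hu : Jf J u) : u ∈ UU O O' := by
  by_cases h1 : (u : F) ∈ O
  · by_cases h2 : ((u⁻¹ : Fˣ) : F) ∈ O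
    · exact UU_left h1 h2
    · rw [Units.val_inv_eq_inv_val] at h2
      exact Pool.Agent.P8H47.EC2.sep h hpw h' hne h1 h2 hu.1
  · have h2 : ((u⁻¹ : Fˣ) : F) ∈ O := by
      rw [Units.val_inv_eq_inv_val]
      exact (O.mem_or_inv_mem _).resolve_left h1
    have h3 : ((u⁻¹ : Fˣ) : F)⁻¹ ∉ O := by
      rw [Units.val_inv_eq_inv_val, inv_inv]
      exact h1
    have := Pool.Agent.P8H47.EC2.sep h hpw h' hne h2 h3 hu.2
    rw [← inv_inv u]
    exact inv_mem this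

/-- the targets at an ordering -/
theorem target (h2 : (2 : F) ≠ 0) (e : OrdEmb F) (x y : Fˣ) (h : 0 < e.f x ∨ 0 < e.f y) :
    ∃ a : Fˣ, ((a : F) ∈ Arch e ∧ ((a⁻¹ : Fˣ) : F) ∈ Arch e) ∧
      ∀ c : F, |e.f c - e.f a| * (4 : ℕ) ≤ |e.f a| →
        0 < e.f x * e.f c ∧ 0 < e.f y * e.f (1 - c) := by
  have hx0 : e.f x ≠ 0 := (map_ne_zero _).2 x.ne_zero
  have hy0 : e.f y ≠ 0 := (map_ne_zero _).2 y.ne_zero
  have e2 : e.f 2 = 2 := map_ofNat e.f 2
  rcases lt_or_gt_of_ne hx0 with hx | hx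
  · have hy : 0 < e.f y := h.resolve_left (not_lt.2 hx.le)
    refine ⟨-1, ⟨⟨1, by simp⟩, ⟨1, by simp⟩⟩, fun c hc => ?_⟩
    have e1 : e.f ((-1 : Fˣ) : F) = -1 := by simp
    rw [e1, abs_neg, abs_one] at hc
    push_cast at hc
    have h3 : |e.f c - -1| ≤ 1 / 4 := by linarith
    have h4 := abs_le.1 h3
    refine ⟨mul_pos_of_neg_of_neg hx (by linarith [h4.2]), mul_pos hy ?_⟩
    rw [map_sub, map_one]
    linarith [h4.2]
  · rcases lt_or_gt_of_ne hy0 with hy | hy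
    · refine ⟨Units.mk0 2 h2, ⟨⟨2, ?_⟩, ⟨1, ?_⟩⟩, fun c hc => ?_⟩
      · rw [Units.val_mk0, e2]
        simp
      · rw [Units.val_inv_eq_inv_val, Units.val_mk0, map_inv₀, e2, abs_of_pos (by norm_num)]
        norm_num
      · rw [Units.val_mk0, e2, abs_two] at hc
        push_cast at hc
        have h3 : |e.f c - 2| ≤ 1 / 2 := by linarith
        have h4 := abs_le.1 h3
        refine ⟨mul_pos hx (by linarith [h4.1]), mul_pos_of_neg_of_neg hy ?_⟩
        rw [map_sub, map_one]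
        linarith [h4.1]
    · have e3 : e.f (2⁻¹) = 1 / 2 := by rw [map_inv₀, e2]; norm_num
      refine ⟨Units.mk0 2⁻¹ (inv_ne_zero h2), ⟨⟨1, ?_⟩, ⟨2, ?_⟩⟩, fun c hc => ?_⟩
      · rw [Units.val_mk0, e3, abs_of_pos (by norm_num)]
        norm_num
      · rw [Units.val_inv_eq_inv_val, Units.val_mk0, inv_inv, e2]
        simp
      · rw [Units.val_mk0, e3, abs_of_pos (by norm_num : (0 : e.R) < 1 / 2)] at hc
        push_cast at hc
        have h3 : |e.f c - 1 / 2| ≤ 1 / 8 := by linarith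
        have h4 := abs_le.1 h3
        refine ⟨mul_pos hx (by linarith [h4.1]), mul_pos hy ?_⟩
        rw [map_sub, map_one]
        linarith [h4.2]

theorem pos_of_mul (e : OrdEmb F) (x z : Fˣ) (h : 0 < e.f x * e.f z) :
    0 < e.f ((x⁻¹ * z : Fˣ) : F) := by
  rw [Units.val_mul, Units.val_inv_eq_inv_val, map_mul, map_inv₀]
  have hx0 : e.f x ≠ 0 := (map_ne_zero _).2 x.ne_zero
  have h1 : (e.f x)⁻¹ * e.f z = (e.f x * e.f z) * ((e.f x)⁻¹) ^ 2 := by
    field_simp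
  rw [h1]
  have h2 : (e.f x)⁻¹ ≠ 0 := inv_ne_zero hx0
  positivity

/-- package L2O -/
theorem l2o : S_L2O := by
  intro ap F _ h2 ι κ _ _ T O J e hS x y hloc hpos
  classical
  rcases isEmpty_or_nonempty (ι ⊕ κ) with hι | hι
  · refine ⟨Units.mk0 (2 : F)⁻¹ (inv_ne_zero h2), Units.mk0 (2 : F)⁻¹ (inv_ne_zero h2), ?_,
      fun i => (hι.false (Sum.inl i)).elim, fun j => (hι.false (Sum.inr j)).elim⟩
    rw [Units.val_mk0]
    field_simp
    norm_num
  have hs : ∀ i, Sol (T i) (J i) x y := fun i => by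
    obtain ⟨X, Y, e, hx, hy⟩ := hloc i
    exact sol (hS.dat i) e hx hy
  choose X Y eXY hx hy hX hY using hs
  -- small elements
  have hkn : ∀ i, ∃ k n : Fˣ, n = k * (Y i * (X i)⁻¹) ∧ ((k : F) ∈ O i ∧ (k : F)⁻¹ ∉ O i) ∧
      ((n : F) ∈ O i ∧ (n : F)⁻¹ ∉ O i) ∧ ∀ (T' : Subgroup Fˣ) (O' : ValuationSubring F),
        pwG F 2 ≤ T' → (∀ x : F, x ∈ O' → x⁻¹ ∉ O' → ∃ t ∈ T', (t : F) = 1 + x) →
        ¬ T i ≤ T' → n ∈ UU (O i) O' := by
    intro i
    obtain ⟨c, -, hc2, hc3, hc4⟩ := (hS.dat i).cls 1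
    have hcU : ∀ (T' : Subgroup Fˣ) (O' : ValuationSubring F), pwG F 2 ≤ T' →
        (∀ x : F, x ∈ O' → x⁻¹ ∉ O' → ∃ t ∈ T', (t : F) = 1 + x) → ¬ T i ≤ T' → c ∈ UU (O i) O' :=
      fun T' O' h3 h4 h5 => Pool.Agent.P8H47.EC2.sep (hS.dat i) h3 h4 h5 hc2 hc3 hc4
    have hrU : ∀ (T' : Subgroup Fˣ) (O' : ValuationSubring F), pwG F 2 ≤ T' →
        (∀ x : F, x ∈ O' → x⁻¹ ∉ O' → ∃ t ∈ T', (t : F) = 1 + x) → ¬ T i ≤ T' →
        Y i * (X i)⁻¹ ∈ UU (O i) O' := fun T' O' h3 h4 h5 =>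
      mul_mem (jf_UU' (hS.dat i) h3 h4 h5 (hY i)) (inv_mem (jf_UU' (hS.dat i) h3 h4 h5 (hX i)))
    by_cases hr : (((Y i * (X i)⁻¹)⁻¹ : Fˣ) : F) ∈ O i
    · exact ⟨c * (Y i * (X i)⁻¹)⁻¹, c, by rw [inv_mul_cancel_right],
        max_mul hc2 hc3 hr, ⟨hc2, hc3⟩, hcU⟩
    · have hr' : ((Y i * (X i)⁻¹ : Fˣ) : F) ∈ O i := by
        rw [Units.val_inv_eq_inv_val] at hr
        exact ((O i).mem_or_inv_mem _).resolve_right hr
      exact ⟨c, c * (Y i * (X i)⁻¹), rfl, ⟨hc2, hc3⟩, max_mul hc2 hc3 hr',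
        fun T' O' h3 h4 h5 => mul_mem (hcU T' O' h3 h4 h5) (hrU T' O' h3 h4 h5)⟩
  choose k n hnk hk hn hnU using hkn
  have htar := fun j => target h2 (e j) x y (hpos j)
  choose a ha hac using htar
  obtain ⟨z, hz⟩ := ap F (ι ⊕ κ) (Sum.elim (fun i => Sum.inl (O i)) (fun j => Sum.inr (e j)))
    Finset.univ 4 (Sum.elim n (fun _ => 1)) (Sum.elim X a)
    (fun q _ => by
      rcases q with i | j
      · exact hn i
      · exact trivial)
    (fun q _ q' _ hqq => by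
      rcases q with i | j
      · rcases q' with i' | j'
        · have hij : i ≠ i' := fun h => hqq (by rw [h])
          exact ⟨trivial, hnU i (T i') (O i') (hS.dat i').pw (hS.dat i').one_add (hS.ne i i' hij),
            jf_UU' (hS.dat i) (hS.dat i').pw (hS.dat i').one_add (hS.ne i i' hij) (hX i)⟩
        · exact ⟨trivial, hnU i (Pos (e j')) (Arch (e j')) (sq_le_pos _) (arch_one_add _)
            (hS.neO i j'), jf_UU' (hS.dat i) (sq_le_pos _) (arch_one_add _) (hS.neO i j') (hX i)⟩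
      · refine ⟨?_, one_mem _, UU_left (ha j).1 (ha j).2⟩
        rcases q' with i' | j'
        · exact trivial
        · exact hS.sep j j' fun h => hqq (by rw [h]))
  have key : ∀ i, ∃ v : Fˣ, (z : F) + v = 1 ∧ x⁻¹ * z ∈ T i ∧ y⁻¹ * v ∈ T i := by
    intro i
    obtain ⟨b, hb, ez⟩ := hz (Sum.inl i) (Finset.mem_univ _)
    change (z : F) = X i * (1 + n i * b) at ez
    obtain ⟨u, hu, -, -, huT⟩ := one_add_mem (hS.dat i).one_add (hn i).1 (hn i).2 hb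
    obtain ⟨w, hw, -, -, hwT⟩ := one_add_mem (hS.dat i).one_add (hk i).1 (hk i).2
      ((O i).neg_mem _ hb)
    refine ⟨Y i * w, ?_, ?_, ?_⟩
    · rw [Units.val_mul, hw, ez, hnk i]
      simp only [Units.val_mul, Units.val_inv_eq_inv_val]
      have := (X i).ne_zero
      field_simp
      linear_combination eXY i
    · have h1 : z = X i * u := Units.ext (by rw [ez, Units.val_mul, hu])
      rw [h1, ← mul_assoc]
      exact mul_mem (hx i) huT
    · rw [← mul_assoc]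
      exact mul_mem (hy i) hwT
  have key2 : ∀ j, 0 < (e j).f x * (e j).f z ∧ 0 < (e j).f y * (e j).f (1 - z) := fun j =>
    hac j z (hz (Sum.inr j) (Finset.mem_univ _))
  obtain ⟨v, hv⟩ : ∃ v : Fˣ, (z : F) + v = 1 := by
    obtain ⟨i₀ | j₀⟩ := hι
    · obtain ⟨v, hv, -⟩ := key i₀
      exact ⟨v, hv⟩
    · have h3 : (1 : F) - z ≠ 0 := by
        intro h
        have := (key2 j₀).2
        rw [h, map_zero, mul_zero] at this
        exact lt_irrefl _ this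
      exact ⟨Units.mk0 _ h3, by rw [Units.val_mk0]; ring⟩
  refine ⟨z, v, hv, fun i => ?_, fun j => ?_⟩
  · obtain ⟨v', hv', h3, h4⟩ := key i
    have h5 : v = v' := Units.ext (add_left_cancel (hv.trans hv'.symm))
    rw [h5]
    exact ⟨h3, h4⟩
  · have h6 : (1 : F) - z = v := by rw [← hv]; ring
    obtain ⟨h7, h8⟩ := key2 j
    rw [h6] at h8
    exact ⟨pos_of_mul _ _ _ h7, pos_of_mul _ _ _ h8⟩

end Pool.Agent.P8H57.FP
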