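import Pool.Agent.P8H47.FP.Stm4

/-!
# Project FP, package DFOUR: the dihedral group of order 8 and quaternion algebras
-/

set_option autoImplicit false

namespace Pool.Agent.P8H57.FP

open Pool.Agent.P8H47.FP

/-- the sign of a number modulo 4 -/
def sg (i : ZMod 4) : ℤˣ := if i.val % 2 = 0 then 1 else -1

/-- the first character, as a function -/
def f₁ : DihedralGroup 4 → ℤˣ
  | .r i => sg i
  | .sr i => sg (i + 1)

/-- the second character, as a function -/
def f₂ : DihedralGroup 4 → ℤˣ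
  | .r i => sg i
  | .sr i => sg i

/-- the character of the kernel of the second character -/
def lm : DihedralGroup 4 → ℤˣ
  | .r i => if i = 0 then 1 else -1
  | .sr i => if i = 0 then 1 else -1

/-- the first character -/
def h₁ : DihedralGroup 4 →* ℤˣ := MonoidHom.mk' f₁ (by decide)

/-- the second character -/
def h₂ : DihedralGroup 4 →* ℤˣ := MonoidHom.mk' f₂ (by decide)

theorem lm_mul : ∀ x y : DihedralGroup 4, f₂ x = 1 → f₂ y = 1 → lm (x * y) = lm x * lm y := by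
  decide

theorem lm_conj : ∀ x v : DihedralGroup 4, f₂ x = -1 → f₂ v = 1 →
    f₁ v = lm v * lm (x * v * x⁻¹) := by
  decide

theorem lm_sq : ∀ x : DihedralGroup 4, f₂ x = -1 → f₁ x = lm (x * x) := by
  decide

theorem surj : Function.Surjective (h₁.prod h₂) := by
  have key : ∀ u v : ℤˣ, ∃ x : DihedralGroup 4, f₁ x = u ∧ f₂ x = v := by decide
  rintro ⟨u, v⟩
  obtain ⟨x, h1, h2⟩ := key u v
  exact ⟨x, Prod.ext h1 h2⟩

theorem kern : ∀ x : DihedralGroup 4, h₁.prod h₂ x = 1 ↔ x = 1 ∨ x = .r 2 := by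
  have key : ∀ x : DihedralGroup 4, (f₁ x = 1 ∧ f₂ x = 1) ↔ x = 1 ∨ x = .r 2 := by decide
  intro x
  rw [← key x, Prod.ext_iff]
  rfl

section

variable {G P : Type} [Group G] [TopologicalSpace G] [Group P] {ψ : G → P} {U : Subgroup G}

theorem HomOn.one' (h : HomOn U ψ) : ψ 1 = 1 := by
  have := h.mul 1 U.one_mem 1 U.one_mem
  rw [one_mul] at this
  exact (mul_eq_left.mp this.symm)

theorem HomOn.inv' (h : HomOn U ψ) {g : G} (hg : g ∈ U) : ψ g⁻¹ = (ψ g)⁻¹ := by
  have := h.mul g hg g⁻¹ (U.inv_mem hg)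
  rw [mul_inv_cancel, HomOn.one' h] at this
  exact (inv_eq_of_mul_eq_one_right this.symm).symm

theorem HomOn.pow' (h : HomOn U ψ) {g : G} (hg : g ∈ U) (n : ℕ) : ψ (g ^ n) = ψ g ^ n := by
  induction n with
  | zero => rw [pow_zero, pow_zero, HomOn.one' h]
  | succ n ih => rw [pow_succ, pow_succ, h.mul _ (U.pow_mem hg n) _ hg, ih]

end

theorem unit_eq {K : Type} [Field K] (h2 : (2 : K) ≠ 0) {b : K} (hb : b ≠ 0) {u : ℤˣ}
    (h : b = ((u : ℤ) : K) * b) : u = 1 := by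
  rcases Int.units_eq_one_or u with hu | hu
  · exact hu
  · exfalso
    rw [hu] at h
    push_cast at h
    have h3 : 2 * b = 0 := by linear_combination h
    rcases mul_eq_zero.1 h3 with h4 | h4
    · exact h2 h4
    · exact hb h4

/-- the application to quaternion algebras -/
theorem dih_nm (hL : C_LOCN) (F K : Type) [Field F] [Field K] [Algebra F K] [IsGalois F K]
    (h2 : (2 : K) ≠ 0) (a b : K) (ha : a ≠ 0) (hb : b ≠ 0)
    (ha2 : a ^ 2 ∈ Fx (⊤ : Subgroup (K ≃ₐ[F] K))) (hb2 : b ^ 2 ∈ Fx (⊤ : Subgroup (K ≃ₐ[F] K)))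
    (ψ : (K ≃ₐ[F] K) → DihedralGroup 4) (hψ : HomOn ⊤ ψ)
    (hψa : ∀ g, g a = (((h₁ (ψ g) : ℤˣ) : ℤ) : K) * a)
    (hψb : ∀ g, g b = (((h₂ (ψ g) : ℤˣ) : ℤ) : K) * b) :
    Nm (Fx (⊤ : Subgroup (K ≃ₐ[F] K))) (b ^ 2) (a ^ 2) := by
  by_cases hbF : b ∈ Fx (⊤ : Subgroup (K ≃ₐ[F] K))
  · have h1 : (1 : K) ∈ Fx (⊤ : Subgroup (K ≃ₐ[F] K)) := one_mem _
    have h22 : (2 : K) ∈ Fx (⊤ : Subgroup (K ≃ₐ[F] K)) := by
      have := add_mem h1 h1
      rwa [one_add_one_eq_two] at this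
    refine ⟨(a ^ 2 + 1) / 2, div_mem (add_mem ha2 h1) h22, (a ^ 2 - 1) / (2 * b),
      div_mem (sub_mem ha2 h1) (mul_mem h22 hbF), ?_⟩
    field_simp
    ring
  · obtain ⟨τ, hτ⟩ : ∃ τ : K ≃ₐ[F] K, τ b ≠ b := by
      by_contra hcon
      push Not at hcon
      apply hbF
      intro g
      exact hcon g.1
    have hτ2 : f₂ (ψ τ) = -1 := by
      rcases Int.units_eq_one_or (f₂ (ψ τ)) with hu | hu
      · exfalso
        apply hτ
        have h3 := hψb τ
        have h4 : h₂ (ψ τ) = 1 := hu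
        rw [h4] at h3
        rw [h3]
        push_cast
        ring
      · exact hu
    have hτb : τ b = -b := by
      have h3 := hψb τ
      have h4 : h₂ (ψ τ) = -1 := hτ2
      rw [h4] at h3
      rw [h3]
      push_cast
      ring
    have hfix : ∀ h : K ≃ₐ[F] K, h b = b → f₂ (ψ h) = 1 := by
      intro h hh
      have h3 := hψb h
      rw [hh] at h3
      exact unit_eq h2 hb h3
    have hm : ∀ g h : K ≃ₐ[F] K, ψ (g * h) = ψ g * ψ h := fun g h =>
      hψ.mul g trivial h trivial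
    obtain ⟨V, hV, hV1⟩ := hψ.cont
    refine hL F K h2 ⊤ (by rw [Subgroup.coe_top]; exact isClosed_univ) b τ hb2 hb trivial hτb
      (fun g => f₁ (ψ g)) (fun g => lm (ψ g)) ⟨?_, V, hV, ?_⟩ ⟨?_, V, hV, ?_⟩ ?_ ?_ a ha ?_
    · intro g _ h _
      rw [hm]
      exact h₁.map_mul _ _
    · intro v hv _
      rw [hV1 v hv trivial]
      exact h₁.map_one
    · intro g hg h hh
      have hg' : g b = b := (Subgroup.mem_inf.1 hg).2
      have hh' : h b = b := (Subgroup.mem_inf.1 hh).2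
      rw [hm]
      exact lm_mul _ _ (hfix g hg') (hfix h hh')
    · intro v hv _
      rw [hV1 v hv trivial]
      decide
    · intro h _ hh
      have e : ψ (τ * h * τ⁻¹) = ψ τ * ψ h * (ψ τ)⁻¹ := by
        rw [hm, hm, HomOn.inv' hψ trivial]
      show f₁ (ψ h) = lm (ψ h) * lm (ψ (τ * h * τ⁻¹))
      rw [e]
      exact lm_conj _ _ hτ2 (hfix h hh)
    · show f₁ (ψ τ) = lm (ψ (τ * τ))
      rw [hm]
      exact lm_sq _ hτ2
    · intro h _
      exact hψa h

/-- package DFOUR -/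
theorem dfour : S_DFOUR := by
  intro hL
  refine ⟨DihedralGroup 4, inferInstance, inferInstance, h₁, h₂, .r 2, ?_, surj, kern, by decide,
    by decide, fun F K _ _ _ _ h2 a b ha hb ha2 hb2 ψ hψ hψa hψb =>
      dih_nm hL F K h2 a b ha hb ha2 hb2 ψ hψ hψa hψb⟩
  rw [DihedralGroup.nat_card]

end Pool.Agent.P8H57.FP
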