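import Pool.Agent.P8H57.FP.Dfour

/-!
# Project FP, package LIFTZ: `ℤ₂` is projective

The topological group must have arbitrarily small open subgroups.
-/

set_option autoImplicit false

namespace Pool.Agent.P8H57.FP

open Pool.Agent.P8H47.FP Topology

/-- the topology has a basis of open subgroups at `1` -/
def Small (G : Type) [Group G] [TopologicalSpace G] : Prop :=
  ∀ U ∈ 𝓝 (1 : G), ∃ V : Subgroup G, IsOpen (V : Set G) ∧ (V : Set G) ⊆ U

theorem small_gal (F K : Type) [Field F] [Field K] [Algebra F K] : Small (K ≃ₐ[F] K) := by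
  intro U hU
  obtain ⟨L, hL, hLU⟩ := (krullTopology_mem_nhds_one_iff F K U).1 hU
  exact ⟨L.fixingSubgroup, L.fixingSubgroup_isOpen, hLU⟩

theorem liftz_small (G : Type) [Group G] [TopologicalSpace G] [IsTopologicalGroup G]
    (hG : Small G) (C : Subgroup G) (hC : Nonempty (↥C ≃ₜ* Multiplicative (PadicInt 2)))
    (P Q : Type) [Group P] [Group Q] [Finite P] (π : P →* Q) (hP : ∃ k : ℕ, Nat.card P = 2 ^ k)
    (hπ : Function.Surjective π) (ψ : G → Q) (hψ : HomOn C ψ) :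
    ∃ φ : G → P, HomOn C φ ∧ ∀ h ∈ C, π (φ h) = ψ h := by
  classical
  obtain ⟨e⟩ := hC
  obtain ⟨k, hk⟩ := hP
  obtain ⟨z1, hz1⟩ : ∃ z : Multiplicative (PadicInt 2), z = Multiplicative.ofAdd 1 := ⟨_, rfl⟩
  obtain ⟨g₀, hg₀⟩ : ∃ g : ↥C, g = e.symm z1 := ⟨_, rfl⟩
  obtain ⟨p, hp⟩ := hπ (ψ (g₀ : G))
  have hpk : p ^ 2 ^ k = 1 := by rw [← hk]; exact pow_card_eq_one'
  -- the exponents
  obtain ⟨T, hT⟩ : ∃ T : ↥C → ZMod (2 ^ k),
      T = fun h => PadicInt.toZModPow k (Multiplicative.toAdd (e h)) := ⟨_, rfl⟩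
  have hTmul : ∀ g h : ↥C, T (g * h) = T g + T h := by
    intro g h
    rw [hT]
    simp only
    rw [map_mul, toAdd_mul, map_add]
  have hpow : ∀ x y : ZMod (2 ^ k), p ^ (x + y).val = p ^ x.val * p ^ y.val := by
    intro x y
    rw [ZMod.val_add, ← pow_eq_pow_mod _ hpk, pow_add]
  obtain ⟨φ, hφ⟩ : ∃ φ : G → P, φ = fun g => if hg : g ∈ C then p ^ (T ⟨g, hg⟩).val else 1 :=
    ⟨_, rfl⟩
  have hφC : ∀ h : ↥C, φ (h : G) = p ^ (T h).val := by
    intro h
    rw [hφ]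
    simp only
    rw [dif_pos h.2]
  -- small elements
  have hball : ∀ m : ℕ, ∀ y ∈ Ideal.span {((2 : ℕ) : PadicInt 2) ^ m}, ‖y‖ ≤ (1 / 2 : ℝ) ^ m := by
    intro m y hy
    have h1 := (PadicInt.norm_le_pow_iff_mem_span_pow y m).2 hy
    refine h1.trans (le_of_eq ?_)
    rw [zpow_neg, zpow_natCast, one_div, inv_pow]
    norm_num
  refine ⟨φ, ⟨?_, ?_⟩, ?_⟩
  · intro g hg h hh
    have e1 := hφC ⟨g, hg⟩
    have e2 := hφC ⟨h, hh⟩
    have e3 := hφC (⟨g, hg⟩ * ⟨h, hh⟩)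
    rw [hTmul, hpow, ← e1, ← e2] at e3
    exact e3
  · -- continuity
    obtain ⟨W, hW⟩ : ∃ W : Set ↥C, W = {h | ‖Multiplicative.toAdd (e h)‖ < (1 / 2 : ℝ) ^ k} :=
      ⟨_, rfl⟩
    have hWn : W ∈ 𝓝 (1 : ↥C) := by
      rw [hW]
      have hc : Continuous fun h : ↥C => ‖Multiplicative.toAdd (e h)‖ :=
        (continuous_toAdd.comp e.continuous).norm
      refine (isOpen_lt hc continuous_const).mem_nhds ?_
      show ‖Multiplicative.toAdd (e 1)‖ < (1 / 2 : ℝ) ^ k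
      rw [map_one, toAdd_one, norm_zero]
      positivity
    rw [mem_nhds_subtype] at hWn
    obtain ⟨U, hU, hUW⟩ := hWn
    obtain ⟨V, hV, hVU⟩ := hG U hU
    refine ⟨V, hV, ?_⟩
    intro v hv hvC
    have h1 : (⟨v, hvC⟩ : ↥C) ∈ W := hUW (hVU hv)
    rw [hW] at h1
    have h2 : ‖Multiplicative.toAdd (e ⟨v, hvC⟩)‖ ≤ ((2 : ℕ) : ℝ) ^ (-(k : ℤ)) := by
      refine (le_of_lt h1).trans (le_of_eq ?_)
      rw [zpow_neg, zpow_natCast, one_div, inv_pow]
      norm_num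
    have h3 := (PadicInt.norm_le_pow_iff_mem_span_pow _ k).1 h2
    rw [← PadicInt.ker_toZModPow, RingHom.mem_ker] at h3
    have h4 : T ⟨v, hvC⟩ = 0 := by rw [hT]; exact h3
    rw [hφC ⟨v, hvC⟩, h4, ZMod.val_zero, pow_zero]
  · -- the lift
    intro h hh
    obtain ⟨V, hV, hV1⟩ := hψ.cont
    -- an integer near `e h`
    have hS : IsOpen {y : PadicInt 2 | ((e.symm (Multiplicative.ofAdd y) : ↥C) : G) ∈ V} := by
      have hc : Continuous fun y : PadicInt 2 => ((e.symm (Multiplicative.ofAdd y) : ↥C) : G) :=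
        continuous_subtype_val.comp (e.symm.continuous.comp continuous_ofAdd)
      exact hV.preimage hc
    obtain ⟨ε, hε, hεS⟩ := Metric.isOpen_iff.1 hS 0 (by
      show ((e.symm (Multiplicative.ofAdd 0) : ↥C) : G) ∈ V
      rw [ofAdd_zero, map_one]
      exact V.one_mem)
    obtain ⟨m₀, hm₀⟩ := exists_pow_lt_of_lt_one hε (by norm_num : (1 / 2 : ℝ) < 1)
    obtain ⟨m, hm, hkm⟩ : ∃ m, m₀ ≤ m ∧ k ≤ m := ⟨max m₀ k, le_max_left _ _, le_max_right _ _⟩
    obtain ⟨z, hz⟩ : ∃ z : PadicInt 2, z = Multiplicative.toAdd (e ⟨h, hh⟩) := ⟨_, rfl⟩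
    obtain ⟨n, hn⟩ : ∃ n : ℕ, n = z.appr m := ⟨_, rfl⟩
    have hsp : z - (n : PadicInt 2) ∈ Ideal.span {((2 : ℕ) : PadicInt 2) ^ m} := by
      rw [hn]
      exact PadicInt.appr_spec m z
    have hyV : ((e.symm (Multiplicative.ofAdd (z - (n : PadicInt 2))) : ↥C) : G) ∈ V := by
      apply hεS
      rw [mem_ball_zero_iff]
      refine (hball m _ hsp).trans_lt (lt_of_le_of_lt ?_ hm₀)
      exact pow_le_pow_of_le_one (by norm_num) (by norm_num) hm
    have hdec : (⟨h, hh⟩ : ↥C) = g₀ ^ n * e.symm (Multiplicative.ofAdd (z - (n : PadicInt 2))) := by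
      apply e.injective
      rw [map_mul, map_pow, hg₀, e.apply_symm_apply, e.apply_symm_apply, hz1, ← ofAdd_nsmul,
        nsmul_one, ← ofAdd_add, add_sub_cancel, hz]
      rfl
    have hy1 : ψ ((e.symm (Multiplicative.ofAdd (z - (n : PadicInt 2))) : ↥C) : G) = 1 :=
      hV1 _ hyV (e.symm (Multiplicative.ofAdd (z - (n : PadicInt 2)))).2
    have hψh : ψ h = ψ (g₀ : G) ^ n := by
      have e1 : h = (g₀ : G) ^ n *
          ((e.symm (Multiplicative.ofAdd (z - (n : PadicInt 2))) : ↥C) : G) := by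
        have := congrArg (fun x : ↥C => (x : G)) hdec
        simpa using this
      rw [e1, hψ.mul _ (C.pow_mem g₀.2 n) _
        (e.symm (Multiplicative.ofAdd (z - (n : PadicInt 2)))).2, hy1, mul_one,
        HomOn.pow' hψ g₀.2]
    have hTh : T ⟨h, hh⟩ = (n : ZMod (2 ^ k)) := by
      have h5 : z - (n : PadicInt 2) ∈ Ideal.span {((2 : ℕ) : PadicInt 2) ^ k} := by
        refine Ideal.span_singleton_le_span_singleton.2 ?_ hsp
        exact pow_dvd_pow _ hkm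
      rw [← PadicInt.ker_toZModPow, RingHom.mem_ker, map_sub, map_natCast, sub_eq_zero] at h5
      rw [hT]
      simp only
      rw [← hz]
      exact h5
    rw [hφC ⟨h, hh⟩, hTh, map_pow, hp, hψh]
    have h6 : π (p ^ 2 ^ k) = 1 := by rw [hpk, map_one]
    rw [map_pow, hp] at h6
    rw [ZMod.val_natCast, ← pow_eq_pow_mod _ h6]

/-- package LIFTZ for Galois groups -/
theorem liftz_gal (F K : Type) [Field F] [Field K] [Algebra F K] (C : Subgroup (K ≃ₐ[F] K))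
    (hC : Nonempty (↥C ≃ₜ* Multiplicative (PadicInt 2)))
    (P Q : Type) [Group P] [Group Q] [Finite P] (π : P →* Q) (hP : ∃ k : ℕ, Nat.card P = 2 ^ k)
    (hπ : Function.Surjective π) (ψ : (K ≃ₐ[F] K) → Q) (hψ : HomOn C ψ) :
    ∃ φ : (K ≃ₐ[F] K) → P, HomOn C φ ∧ ∀ h ∈ C, π (φ h) = ψ h :=
  liftz_small _ (small_gal F K) C hC P Q π hP hπ ψ hψ

end Pool.Agent.P8H57.FP
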