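import Pool.Agent.P8H47.FP.Stm4
import Pool.Agent.P8H56.FP.Inf

/-!
# Project FP, package NOINV: no involutions if `-1` is a sum of two squares
-/

set_option autoImplicit false

namespace Pool.Agent.P8H57.FP

open Pool.Agent.P8H47.FP Pool.Agent.P8H56.FP

/-- package NOINV -/
theorem noinv : S_NOINV := by
  intro F K _ _ _ h2 hsq huv τ hτ
  by_contra hτ1
  obtain ⟨u, v, huv⟩ := huv
  obtain ⟨i, hi⟩ := hsq (-1)
  have hi0 : i ≠ 0 := by
    rintro rfl
    rw [zero_pow two_ne_zero] at hi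
    exact one_ne_zero (neg_eq_zero.1 hi.symm)
  have hτi := invol h2 hsq hi τ (by rw [pow_two]; exact hτ) hτ1
  have hττ : ∀ y, τ (τ y) = y := by
    intro y
    have h3 : (τ * τ) y = (1 : K ≃ₐ[F] K) y := by rw [hτ]
    exact h3
  obtain ⟨l, hl⟩ := hsq (algebraMap F K u + algebraMap F K v * i)
  have h3 : (l * τ l) ^ 2 = i ^ 2 := by
    have h4 : (τ l) ^ 2 = algebraMap F K u - algebraMap F K v * i := by
      rw [← map_pow, hl, map_add, map_mul, AlgEquiv.commutes, AlgEquiv.commutes, hτi]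
      ring
    rw [mul_pow, hl, h4, hi]
    have h6 : (-1 : K) = algebraMap F K u ^ 2 + algebraMap F K v ^ 2 := by
      rw [← map_pow, ← map_pow, ← map_add, ← huv, map_neg, map_one]
    linear_combination (-(algebraMap F K v) ^ 2) * hi - h6
  have h4 : τ (l * τ l) = l * τ l := by rw [map_mul, hττ, mul_comm]
  rcases sq_eq_sq_iff_eq_or_eq_neg.1 h3 with h5 | h5
  · rw [h5, hτi] at h4
    exact neg_ne h2 hi0 h4
  · rw [h5, map_neg, hτi, neg_neg] at h4
    exact neg_ne h2 hi0 h4.symm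

end Pool.Agent.P8H57.FP
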